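import Pool.Agent.P8H15.DS.Stm

/-!
# Package HI of the project DS
-/

set_option autoImplicit false

namespace Pool.Agent.P8H75.DS

open Complex Filter Topology MeasureTheory Set Polynomial
open Pool.Agent.Y671.LD
open Pool.Agent.P8H15.DS

/-- dyadic summation for a general property of the zeros -/
theorem dy_gen {P : ℂ → Prop} {a : ℂ → ℝ} {D X₀ : ℝ} (hD : 0 ≤ D) (hX₀ : 2 ≤ X₀)
    (h : ∀ X : ℝ, X₀ ≤ X → ∀ S : Finset ℂ, (∀ s ∈ S, P s ∧ X < s.im ∧ s.im ≤ 2 * X) →
      ∑ s ∈ S, a s ≤ D * X * Real.log X)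
    (k : ℕ) : ∀ U : ℝ, X₀ ≤ U → U ≤ 2 ^ k * X₀ → ∀ S : Finset ℂ,
      (∀ s ∈ S, P s ∧ X₀ < s.im ∧ s.im ≤ U) → ∑ s ∈ S, a s ≤ 2 * D * U * Real.log U := by
  induction k with
  | zero =>
    intro U hU hU' S hS
    have h6 : S = ∅ := by
      rw [Finset.eq_empty_iff_forall_notMem]
      intro s hs
      obtain ⟨hb, h0, h1⟩ := hS s hs
      simp at hU'
      linarith
    rw [h6, Finset.sum_empty]
    have := Real.log_nonneg (show (1 : ℝ) ≤ U by linarith)
    have hU0 : 0 ≤ U := by linarith
    positivity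
  | succ k ih =>
    intro U hU hU' S hS
    have hl : 0 ≤ Real.log U := Real.log_nonneg (show (1 : ℝ) ≤ U by linarith)
    have hU0 : 0 < U := by linarith
    rcases le_or_gt U (2 * X₀) with hc | hc
    · have h1 := h X₀ le_rfl S (fun s hs => ⟨(hS s hs).1, (hS s hs).2.1, (hS s hs).2.2.trans hc⟩)
      refine h1.trans ?_
      have h2 : Real.log X₀ ≤ Real.log U := Real.log_le_log (by linarith) hU
      have h3 : D * X₀ * Real.log X₀ ≤ D * U * Real.log U := by
        have h4 : 0 ≤ Real.log X₀ := Real.log_nonneg (by linarith)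
        gcongr
      have h5 : 0 ≤ D * U * Real.log U := by positivity
      linarith
    · classical
      have hV : X₀ ≤ U / 2 := by linarith
      have hV' : U / 2 ≤ 2 ^ k * X₀ := by rw [pow_succ] at hU'; linarith
      have h1 := ih (U / 2) hV hV' (S.filter fun s => s.im ≤ U / 2) (by
        intro s hs
        rw [Finset.mem_filter] at hs
        exact ⟨(hS s hs.1).1, (hS s hs.1).2.1, hs.2⟩)
      have h2 := h (U / 2) hV (S.filter fun s => ¬ s.im ≤ U / 2) (by
        intro s hs
        rw [Finset.mem_filter, not_le] at hs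
        exact ⟨(hS s hs.1).1, hs.2, by linarith [(hS s hs.1).2.2]⟩)
      rw [← Finset.sum_filter_add_sum_filter_not S (fun s => s.im ≤ U / 2)]
      have h3 : Real.log (U / 2) ≤ Real.log U := Real.log_le_log (by linarith) (by linarith)
      have h4 : 0 ≤ Real.log (U / 2) := Real.log_nonneg (by linarith)
      have h5 : D * U * Real.log (U / 2) ≤ D * U * Real.log U := by
        gcongr
      have h6 : 0 ≤ D * U * Real.log (U / 2) := by positivity
      have h7 : 2 * D * (U / 2) * Real.log (U / 2) + D * (U / 2) * Real.log (U / 2) =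
          3 / 2 * (D * U * Real.log (U / 2)) := by ring
      linarith

/-- the trivial bound from the unit windows -/
theorem triv_bound {F : ℂ → ℂ} (h5 : Unt F) : ∃ C K : ℝ, 0 < C ∧ 1 ≤ K ∧ ∀ (n : ℕ) (T : ℝ), 2 ≤ T →
    ∀ S : Finset ℂ, (∀ s ∈ S, iteratedDeriv n F s = 0 ∧ Real.exp (K * (n + 1)) ≤ s.im ∧ s.im ≤ T) →
    ∑ s ∈ S, (analyticOrderNatAt (iteratedDeriv n F) s : ℝ) ≤ C * T * Real.log T := by
  classical
  obtain ⟨C, T0, hC, hT0, h⟩ := h5 1 le_rfl
  have hT00 : 0 < T0 := by linarith
  refine ⟨2 * C, max 2 (Real.log (T0 + 1)), by positivity, by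
    have := le_max_left (2 : ℝ) (Real.log (T0 + 1))
    linarith, ?_⟩
  intro n T hT S hS
  have hlT : 0 ≤ Real.log T := Real.log_nonneg (by linarith)
  set K := max 2 (Real.log (T0 + 1)) with hK
  have hK2 : 2 ≤ K := le_max_left _ _
  have hKT : Real.log (T0 + 1) ≤ K := le_max_right _ _
  have hn0 : (0 : ℝ) ≤ n := Nat.cast_nonneg n
  have hbig : T0 + 1 ≤ Real.exp (K * (n + 1)) := by
    rw [← Real.log_le_iff_le_exp (by linarith)]
    nlinarith
  have hbig2 : Real.exp n + 1 ≤ Real.exp (K * (n + 1)) := by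
    have h1 : (n : ℝ) + 1 ≤ K * (n + 1) := by nlinarith
    have h2 : Real.exp ((n : ℝ) + 1) ≤ Real.exp (K * (n + 1)) := Real.exp_le_exp.mpr h1
    have h3 : Real.exp ((n : ℝ) + 1) = Real.exp n * Real.exp 1 := Real.exp_add _ _
    have h4 : (2 : ℝ) ≤ Real.exp 1 := by
      have := Real.add_one_le_exp (1 : ℝ)
      linarith
    have h5 : 1 ≤ Real.exp (n : ℝ) := Real.one_le_exp hn0
    nlinarith
  have hmaps : ∀ s ∈ S, ⌊s.im⌋₊ ∈ Finset.range (⌊T⌋₊ + 1) := by
    intro s hs
    rw [Finset.mem_range, Nat.lt_succ_iff]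
    exact Nat.floor_le_floor (hS s hs).2.2
  rw [← Finset.sum_fiberwise_of_maps_to hmaps]
  have hfib : ∀ j ∈ Finset.range (⌊T⌋₊ + 1),
      ∑ s ∈ S.filter (fun s => ⌊s.im⌋₊ = j), (analyticOrderNatAt (iteratedDeriv n F) s : ℝ) ≤
        C * Real.log T := by
    intro j hj
    rcases (S.filter (fun s => ⌊s.im⌋₊ = j)).eq_empty_or_nonempty with he | ⟨s₀, hs₀⟩
    · rw [he, Finset.sum_empty]
      positivity
    · rw [Finset.mem_filter] at hs₀
      obtain ⟨k1, k2, k3⟩ := hS s₀ hs₀.1
      have hs0 : 0 ≤ s₀.im := by linarith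
      have hj1 : s₀.im < (j : ℝ) + 1 := by
        rw [← hs₀.2]
        exact Nat.lt_floor_add_one _
      have hjT0 : T0 ≤ (j : ℝ) := by linarith
      have hjn : (n : ℝ) ≤ 1 * Real.log j := by
        rw [one_mul, Real.le_log_iff_exp_le (by linarith)]
        linarith
      have hjT : (j : ℝ) ≤ T := by
        rw [Finset.mem_range, Nat.lt_succ_iff] at hj
        exact (Nat.cast_le.mpr hj).trans (Nat.floor_le (by linarith))
      refine (h j n hjT0 hjn _ ?_).trans ?_
      · intro s hs
        rw [Finset.mem_filter] at hs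
        refine ⟨?_, (hS s hs.1).1⟩
        have h1 : 0 ≤ s.im := by
          have := (hS s hs.1).2.1
          linarith
        have h2 := Nat.floor_le h1
        have h3 := Nat.lt_floor_add_one s.im
        rw [hs.2] at h2 h3
        rw [abs_le]
        constructor <;> linarith
      · have : Real.log j ≤ Real.log T := Real.log_le_log (by linarith) hjT
        exact mul_le_mul_of_nonneg_left this hC.le
  refine (Finset.sum_le_sum hfib).trans ?_
  rw [Finset.sum_const, Finset.card_range, nsmul_eq_mul]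
  have h1 : ((⌊T⌋₊ + 1 : ℕ) : ℝ) ≤ 2 * T := by
    have := Nat.floor_le (show 0 ≤ T by linarith)
    push_cast
    linarith
  calc ((⌊T⌋₊ + 1 : ℕ) : ℝ) * (C * Real.log T) ≤ (2 * T) * (C * Real.log T) :=
        mul_le_mul_of_nonneg_right h1 (by positivity)
    _ = _ := by ring

/-- change of the normalising factor in `Fol` -/
theorem fol_change {F : ℂ → ℂ} {n : ℕ} {L L' ε : ℝ} {s : ℂ} (hL : 0 < L)
    (h : |L' - L| * (Real.pi + ε / 2) ≤ ε / 2 * L) (hF : Fol F n L (ε / 2) s) : Fol F n L' ε s := by
  obtain ⟨h1, h2, g, hg0, hg, h3, h4, h5⟩ := hF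
  refine ⟨h1, h2, g, hg0, ?_, h3, h4, h5⟩
  have hgL : g * L ≤ Real.pi + ε / 2 := by
    have := (abs_le.mp hg).2
    linarith
  have h6 : |g * L' - g * L| ≤ ε / 2 := by
    rw [← mul_sub, abs_mul, abs_of_pos hg0]
    have h7 : (g * |L' - L|) * L ≤ (ε / 2) * L := by
      calc (g * |L' - L|) * L = |L' - L| * (g * L) := by ring
        _ ≤ |L' - L| * (Real.pi + ε / 2) := mul_le_mul_of_nonneg_left hgL (abs_nonneg _)
        _ ≤ _ := h
    exact le_of_mul_le_mul_right h7 hL
  calc |g * L' - Real.pi| = |(g * L' - g * L) + (g * L - Real.pi)| := by ring_nf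
    _ ≤ |g * L' - g * L| + |g * L - Real.pi| := abs_add_le _ _
    _ ≤ ε := by linarith

theorem hi_of {F : ℂ → ℂ} {B K : ℝ} (_hD : DD B K F) (h5 : Unt F) (h : S_MID F) :
    S_HI F (1 / 2) := by
  intro ε hε
  obtain ⟨c, C, T0, n0, hc, hC, hT0, hmid⟩ := h (ε / 2) (by positivity)
  obtain ⟨Cu, Ku, hCu, hKu, htriv⟩ := triv_bound h5
  have hpi := Real.pi_pos
  set K1 : ℝ := max (max Ku 402) (max (Real.log T0 + 1) (2 * (Real.pi + ε / 2) / ε + 1)) with hK1
  have hKu1 : Ku ≤ K1 := (le_max_left _ _).trans (le_max_left _ _)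
  have h402 : 402 ≤ K1 := (le_max_right _ _).trans (le_max_left _ _)
  have hKT0 : Real.log T0 + 1 ≤ K1 := (le_max_left _ _).trans (le_max_right _ _)
  have hKε : 2 * (Real.pi + ε / 2) / ε + 1 ≤ K1 := (le_max_right _ _).trans (le_max_right _ _)
  refine ⟨c, 2 * C + Cu * Real.exp (c * n0), K1, hc, by positivity, by linarith, ?_⟩
  intro n T hT S hS
  have hn : (0 : ℝ) ≤ n := Nat.cast_nonneg n
  have hlT : 0 ≤ Real.log T := Real.log_nonneg (by linarith)
  have hTl : 0 ≤ T * Real.log T := mul_nonneg (by linarith) hlT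
  rcases lt_or_ge n n0 with hnn | hnn
  · have h1 := htriv n T hT S (by
      intro s hs
      obtain ⟨k1, k2, k3, -⟩ := hS s hs
      refine ⟨k1, le_trans (Real.exp_le_exp.mpr ?_) k2, k3⟩
      exact mul_le_mul_of_nonneg_right hKu1 (by linarith))
    refine h1.trans ?_
    have h2 : 1 ≤ Real.exp (c * n0) * Real.exp (-(c * n)) := by
      rw [← Real.exp_add]
      apply Real.one_le_exp
      have : (n : ℝ) ≤ n0 := by exact_mod_cast hnn.le
      nlinarith
    have h3 : 0 < Real.exp (-(c * n)) := Real.exp_pos _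
    calc Cu * T * Real.log T = (T * Real.log T) * Cu * 1 := by ring
      _ ≤ (T * Real.log T) * Cu * (Real.exp (c * n0) * Real.exp (-(c * n))) :=
        mul_le_mul_of_nonneg_left h2 (by positivity)
      _ ≤ (2 * C * T * Real.log T) * Real.exp (-(c * n)) +
          (T * Real.log T) * Cu * (Real.exp (c * n0) * Real.exp (-(c * n))) := by
        have : 0 ≤ 2 * C * (T * Real.log T) * Real.exp (-(c * n)) := by positivity
        linarith
      _ = _ := by ring
  · -- dyadic windows
    set X₀ : ℝ := Real.exp (K1 * (n + 1)) / 2 with hX₀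
    have hX₀0 : 0 < X₀ := by positivity
    have hlogX₀ : K1 * (n + 1) - 1 ≤ Real.log X₀ := by
      rw [hX₀, Real.log_div (Real.exp_pos _).ne' (by norm_num), Real.log_exp]
      have := Real.log_two_lt_d9
      linarith
    have hK1n : K1 ≤ K1 * (n + 1) := by nlinarith
    have hX₀T0 : T0 ≤ X₀ := by
      rw [← Real.log_le_log_iff (by linarith) hX₀0]
      linarith
    rcases lt_or_ge T X₀ with hTX | hTX
    · have h6 : S = ∅ := by
        rw [Finset.eq_empty_iff_forall_notMem]
        intro s hs
        obtain ⟨-, k2, k3, -⟩ := hS s hs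
        have : X₀ ≤ Real.exp (K1 * (n + 1)) := by
          rw [hX₀]
          have := Real.exp_pos (K1 * (n + 1))
          linarith
        linarith
      rw [h6, Finset.sum_empty]
      have := Real.exp_pos (-(c * n))
      have h7 : 0 ≤ (2 * C + Cu * Real.exp (c * n0)) * (T * Real.log T) * Real.exp (-(c * n)) := by
        positivity
      linarith
    obtain ⟨k, hk⟩ : ∃ k : ℕ, T < 2 ^ k := pow_unbounded_of_one_lt T (by norm_num)
    have hmain := dy_gen (P := fun s => iteratedDeriv n F s = 0 ∧ Real.exp (K1 * (n + 1)) ≤ s.im ∧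
        ¬ Fol F n (1 / 2 * Real.log s.im) ε s)
      (a := fun s => (analyticOrderNatAt (iteratedDeriv n F) s : ℝ))
      (D := C * Real.exp (-(c * n))) (X₀ := X₀) (by positivity) (hT0.trans hX₀T0)
      (by
        intro X hX S' hS'
        have hX0 : 0 < X := by linarith
        have hlogX : K1 * (n + 1) - 1 ≤ Real.log X :=
          hlogX₀.trans (Real.log_le_log hX₀0 hX)
        have hn400 : (n : ℝ) ≤ Real.log X / 400 := by nlinarith
        refine (hmid X n (hX₀T0.trans hX) hnn hn400 S' ?_).trans (le_of_eq ?_)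
        · intro s hs
          obtain ⟨⟨k1, k2, k3⟩, k4, k5⟩ := hS' s hs
          refine ⟨k1, k4, k5, ?_⟩
          intro hfol
          apply k3
          have hs0 : 0 < s.im := by linarith
          have hL0 : 0 < Real.log X := by nlinarith
          refine fol_change (by positivity) ?_ hfol
          have h8 : Real.log X ≤ Real.log s.im := Real.log_le_log hX0 k4.le
          have h9 : Real.log s.im ≤ Real.log X + 1 := by
            have h10 := Real.log_le_log hs0 k5
            rw [Real.log_mul (by norm_num) hX0.ne'] at h10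
            have := Real.log_two_lt_d9
            linarith
          have h11 : |1 / 2 * Real.log s.im - Real.log X / 2| ≤ 1 / 2 := by
            rw [abs_le]
            constructor <;> linarith
          have h12 : 2 * (Real.pi + ε / 2) / ε ≤ Real.log X := by linarith
          rw [div_le_iff₀ hε] at h12
          calc |1 / 2 * Real.log s.im - Real.log X / 2| * (Real.pi + ε / 2)
              ≤ 1 / 2 * (Real.pi + ε / 2) := mul_le_mul_of_nonneg_right h11 (by positivity)
            _ ≤ ε / 2 * (Real.log X / 2) := by linarith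
        · ring)
      k T hTX (by
        have h1 : (1 : ℝ) ≤ X₀ := by linarith
        have h2 : (0 : ℝ) < 2 ^ k := by positivity
        nlinarith) S (by
        intro s hs
        obtain ⟨k1, k2, k3, k4⟩ := hS s hs
        refine ⟨⟨k1, k2, k4⟩, ?_, k3⟩
        have := Real.exp_pos (K1 * (n + 1))
        rw [hX₀]
        linarith)
    refine hmain.trans ?_
    have h3 : 0 < Real.exp (-(c * n)) := Real.exp_pos _
    have h4 : 0 ≤ (Cu * Real.exp (c * n0)) * (T * Real.log T) * Real.exp (-(c * n)) := by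
      positivity
    linarith

theorem order_scale' {b : ℝ} (hb : 0 < b) (g : ℂ → ℂ) (s : ℂ) :
    analyticOrderNatAt (fun z => g (z / (b : ℂ))) (b * s) = analyticOrderNatAt g s := by
  have hbc : (b : ℂ) ≠ 0 := by exact_mod_cast hb.ne'
  have h1 : (fun z => g (z / (b : ℂ))) = g ∘ (fun z => z / (b : ℂ)) := rfl
  have h2 : analyticOrderAt (g ∘ (fun z => z / (b : ℂ))) (b * s) =
      analyticOrderAt g ((b * s) / b) := by
    apply analyticOrderAt_comp_of_deriv_ne_zero
    · fun_prop
    · have : HasDerivAt (fun z : ℂ => z / (b : ℂ)) (1 / b) (b * s) :=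
        (hasDerivAt_id _).div_const (b : ℂ)
      rw [this.deriv]
      simp [hbc]
  unfold analyticOrderNatAt
  rw [h1, h2]
  congr 2
  field_simp

theorem iter_div {X : ℂ → ℂ} (hX : Differentiable ℂ X) (b : ℝ) (m : ℕ) (z : ℂ) :
    iteratedDeriv m (fun z => X (z / (b : ℂ))) z = ((1 / b : ℝ) : ℂ) ^ m *
      iteratedDeriv m X (z / b) := by
  have h2 : (fun z : ℂ => X (z / (b : ℂ))) = fun z => X (((1 / b : ℝ) : ℂ) * z) := by
    funext z
    congr 1
    push_cast
    ring
  rw [h2, iter_scale hX]
  congr 2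
  push_cast
  ring

theorem hi_scale {X : ℂ → ℂ} {κ : ℝ} (hκ : 1 / 2 ≤ κ) (hX : Differentiable ℂ X)
    (h : S_HI (fun z => X (z / ((2 * κ : ℝ) : ℂ))) (1 / 2)) : S_HI X κ := by
  classical
  intro ε hε
  obtain ⟨c, C, K, hc, hC, hK, hmain⟩ := h (ε / 2) (by positivity)
  obtain ⟨b, hb⟩ : ∃ b : ℝ, b = 2 * κ := ⟨_, rfl⟩
  rw [← hb] at hmain
  have hb1 : 1 ≤ b := by linarith
  have hb0 : 0 < b := by linarith
  have hbc : (b : ℂ) ≠ 0 := by exact_mod_cast hb0.ne'
  have hlb : 0 ≤ Real.log b := Real.log_nonneg hb1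
  have hpi := Real.pi_pos
  have hinv : ((1 / b : ℝ) : ℂ) ≠ 0 := by
    norm_cast
    positivity
  set K1 : ℝ := max K (1 + 2 * (Real.log b * (Real.pi + ε / 2)) / ε) with hK1
  have hKK : K ≤ K1 := le_max_left _ _
  have hKb : 1 + 2 * (Real.log b * (Real.pi + ε / 2)) / ε ≤ K1 := le_max_right _ _
  refine ⟨c, C * b * (1 + 2 * Real.log b), K1, hc, by positivity, hK.trans hKK, ?_⟩
  intro n T hT S hS
  have hn : (0 : ℝ) ≤ n := Nat.cast_nonneg n
  have hlT : 1 / 2 ≤ Real.log T := by
    have h3 : Real.log 2 ≤ Real.log T := Real.log_le_log (by norm_num) hT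
    have := Real.log_two_gt_d9
    linarith
  set G : ℂ → ℂ := fun z => X (z / (b : ℂ)) with hG
  have hit : ∀ (m : ℕ) (z : ℂ), iteratedDeriv m G ((b : ℂ) * z) =
      ((1 / b : ℝ) : ℂ) ^ m * iteratedDeriv m X z := by
    intro m z
    rw [hG, iter_div hX, mul_div_cancel_left₀ _ hbc]
  have hit0 : ∀ (m : ℕ) (z : ℂ), iteratedDeriv m G ((b : ℂ) * z) = 0 ↔
      iteratedDeriv m X z = 0 := by
    intro m z
    rw [hit, mul_eq_zero]
    exact or_iff_right (pow_ne_zero m hinv)
  have h8 := hmain n (b * T) (by nlinarith) (S.image (fun s => (b : ℂ) * s)) (by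
    intro s hs
    rw [Finset.mem_image] at hs
    obtain ⟨w, hw, rfl⟩ := hs
    obtain ⟨k1, k2, k3, k4⟩ := hS w hw
    have hexp : Real.exp (K * (n + 1)) ≤ Real.exp (K1 * (n + 1)) := by
      apply Real.exp_le_exp.mpr
      exact mul_le_mul_of_nonneg_right hKK (by linarith)
    have hw0 : 0 < w.im := lt_of_lt_of_le (Real.exp_pos _) k2
    have him : ((b : ℂ) * w).im = b * w.im := Complex.im_ofReal_mul _ _
    refine ⟨(hit0 n w).mpr k1, ?_, ?_, ?_⟩
    · rw [him]
      nlinarith
    · rw [him]
      gcongr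
    · intro hfol
      apply k4
      have hlw : K1 ≤ Real.log w.im := by
        have h1 : K1 * (n + 1) ≤ Real.log w.im := by
          rw [Real.le_log_iff_exp_le hw0]
          exact k2
        have h2 : K1 ≤ K1 * (n + 1) := by nlinarith
        linarith
      have hlw0 : 0 < Real.log w.im := by linarith
      have hlbw : Real.log (b * w.im) = Real.log b + Real.log w.im :=
        Real.log_mul hb0.ne' hw0.ne'
      -- change the normalising factor
      have hfol' : Fol G n (1 / 2 * Real.log w.im) ε ((b : ℂ) * w) := by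
        rw [him, hlbw] at hfol
        refine fol_change (by positivity) ?_ hfol
        have e1 : |1 / 2 * Real.log w.im - 1 / 2 * (Real.log b + Real.log w.im)| =
            1 / 2 * Real.log b := by
          rw [show 1 / 2 * Real.log w.im - 1 / 2 * (Real.log b + Real.log w.im) =
            -(1 / 2 * Real.log b) by ring, abs_neg, abs_of_nonneg (by positivity)]
        rw [e1]
        have h12 : 2 * (Real.log b * (Real.pi + ε / 2)) / ε ≤ Real.log w.im := by linarith
        rw [div_le_iff₀ hε] at h12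
        have h13 : 0 ≤ ε / 2 * (1 / 2 * Real.log b) := by positivity
        nlinarith
      obtain ⟨h1, h2, g, hg0, hg, h3, h4, h5⟩ := hfol'
      have hgI : (b : ℂ) * w + g * I = (b : ℂ) * (w + ((g / b : ℝ) : ℂ) * I) := by
        push_cast
        field_simp
      refine ⟨?_, ?_, g / b, by positivity, ?_, ?_, ?_, ?_⟩
      · rw [Complex.re_ofReal_mul, mul_eq_zero] at h1
        exact h1.resolve_left hb0.ne'
      · intro h0
        exact h2 ((hit0 (n + 1) w).mpr h0)
      · have e2 : g / b * (κ * Real.log w.im) = g * (1 / 2 * Real.log w.im) := by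
          rw [hb]
          have hκ0 : κ ≠ 0 := by
            intro h0
            rw [h0] at hκ
            norm_num at hκ
          field_simp
        rw [e2]
        exact hg
      · rw [hgI, hit0] at h3
        exact h3
      · intro h0
        apply h4
        rw [hgI, hit0]
        exact h0
      · intro z hz hz1 hz2
        have h6 := h5 ((b : ℂ) * z) ((hit0 n z).mpr hz) (by
          rw [him, Complex.im_ofReal_mul]
          exact mul_le_mul_of_nonneg_left hz1 hb0.le) (by
          rw [him, Complex.im_ofReal_mul]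
          have h7 : b * z.im ≤ b * (w.im + g / b) := mul_le_mul_of_nonneg_left hz2 hb0.le
          have h8 : b * (w.im + g / b) = b * w.im + g := by
            field_simp
          linarith)
        rcases h6 with h6 | h6
        · left
          exact mul_left_cancel₀ hbc h6
        · right
          rw [hgI] at h6
          exact mul_left_cancel₀ hbc h6)
  rw [Finset.sum_image (by
    intro x _ y _ hxy
    exact mul_left_cancel₀ hbc hxy)] at h8
  have h9 : ∀ s ∈ S, (analyticOrderNatAt (iteratedDeriv n X) s : ℝ) =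
      (analyticOrderNatAt (iteratedDeriv n G) ((b : ℂ) * s) : ℝ) := by
    intro s _
    have e1 : iteratedDeriv n G = fun z => ((1 / b : ℝ) : ℂ) ^ n *
        iteratedDeriv n X (z / (b : ℂ)) := by
      funext z
      rw [hG, iter_div hX]
    rw [e1, order_const_mul (pow_ne_zero n hinv), order_scale' hb0]
    have : Differentiable ℂ (fun z => iteratedDeriv n X (z / (b : ℂ))) :=
      (iter_diff hX n).comp (by fun_prop)
    exact this.analyticAt _
  rw [Finset.sum_congr rfl h9]
  refine h8.trans ?_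
  have h10 : Real.log (b * T) ≤ (1 + 2 * Real.log b) * Real.log T := by
    rw [Real.log_mul hb0.ne' (by linarith)]
    nlinarith
  have h11 : 0 < Real.exp (-(c * n)) := Real.exp_pos _
  calc C * (b * T) * Real.log (b * T) * Real.exp (-(c * n))
      ≤ C * (b * T) * ((1 + 2 * Real.log b) * Real.log T) * Real.exp (-(c * n)) := by
        gcongr
    _ = _ := by ring

end Pool.Agent.P8H75.DS
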