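import Pool.Agent.P8H75.RP.Sum
import Pool.Agent.N248.RC.Lev

set_option autoImplicit false
set_option linter.unusedSectionVars false

/-!
# Random sets of integers sample all Dirichlet polynomials: one good set
-/

namespace Pool.Agent.P8H75.DS

open Finset MeasureTheory Pool.Agent.N248.RC Pool.Agent.P8H75.RP

/-- `D(t) = ∑_{N ≤ n ≤ 2N} b_n n^{it}` -/
noncomputable def D (N : ℕ) (b : ℕ → ℂ) (t : ℝ) : ℂ :=
  ∑ n ∈ Icc N (2 * N), b n * Complex.exp (((t * Real.log (n : ℝ) : ℝ) : ℂ) * Complex.I)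

/-- the indices -/
abbrev Vt (N : ℕ) : Type := {n // n ∈ Icc N (2 * N)}

theorem card_Vt (N : ℕ) : Fintype.card (Vt N) = N + 1 := by
  rw [Fintype.card_coe, Nat.card_Icc]
  omega

/-- the kernel -/
noncomputable def ph (N : ℕ) (v : Vt N) (t : ℕ) : ℂ :=
  Complex.exp ((((t : ℝ) * Real.log ((v : ℕ) : ℝ) : ℝ) : ℂ) * Complex.I)

theorem ph_norm (N : ℕ) (v : Vt N) (t : ℕ) : ‖ph N v t‖ ≤ 1 :=
  (Complex.norm_exp_ofReal_mul_I _).le

/-- the normalised coefficients -/
noncomputable def gf (N : ℕ) (b : ℕ → ℂ) (v : Vt N) : ℂ := b v / (((N : ℝ) + 1 : ℝ) : ℂ)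

theorem D_eq (N : ℕ) (b : ℕ → ℂ) (t : ℕ) :
    ‖D N b t‖ = ((N : ℝ) + 1) * ‖tr Measure.count (ph N) (gf N b) t‖ := by
  have h0 : (((N : ℝ) + 1 : ℝ) : ℂ) ≠ 0 := by
    have : (0 : ℝ) < (N : ℝ) + 1 := by positivity
    exact_mod_cast this.ne'
  have e : D N b t = (((N : ℝ) + 1 : ℝ) : ℂ) * tr Measure.count (ph N) (gf N b) t := by
    unfold tr D
    rw [integral_count, mul_sum, ← sum_coe_sort]
    refine sum_congr rfl fun v _ => ?_
    unfold gf ph
    field_simp
  rw [e, norm_mul, Complex.norm_real, Real.norm_of_nonneg (by positivity)]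

theorem gf_int (N : ℕ) (b : ℕ → ℂ) : Integrable (gf N b) (Measure.count : Measure (Vt N)) :=
  Integrable.of_finite

theorem gf_one (N : ℕ) (b : ℕ → ℂ) (hb : ∀ n ∈ Icc N (2 * N), ‖b n‖ ≤ 1) :
    ∫ v, ‖gf N b v‖ ∂(Measure.count : Measure (Vt N)) ≤ 1 := by
  rw [integral_count]
  have h0 : (0 : ℝ) < (N : ℝ) + 1 := by positivity
  have h1 : ∀ v ∈ (univ : Finset (Vt N)), ‖gf N b v‖ ≤ 1 / ((N : ℝ) + 1) := by
    intro v _
    unfold gf
    rw [norm_div, Complex.norm_real, Real.norm_of_nonneg h0.le]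
    exact div_le_div_of_nonneg_right (hb v v.2) h0.le
  refine (sum_le_sum h1).trans (le_of_eq ?_)
  rw [sum_const, card_univ, card_Vt, nsmul_eq_mul]
  push_cast
  field_simp

/-- the alphabet -/
noncomputable def Ab (N : ℕ) : Option (Vt N × Fin 4) → ℕ → ℂ := Xa (ph N)

theorem Ab_meas (N : ℕ) (i : Option (Vt N × Fin 4)) : Measurable (Ab N i) :=
  Measurable.of_discrete

theorem Ab_norm (N : ℕ) (i : Option (Vt N × Fin 4)) (t : ℕ) : ‖Ab N i t‖ ≤ 1 :=
  Xa_norm _ (fun v t => ph_norm N v t) i t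

theorem short (N : ℕ) (b : ℕ → ℂ) (hb : ∀ n ∈ Icc N (2 * N), ‖b n‖ ≤ 1) :
    ∃ w : Option (Vt N × Fin 4) → ℝ, (∀ i, 0 ≤ w i) ∧ ∑ i, w i = 1 ∧
      ∀ t, |‖tr Measure.count (ph N) (gf N b) t‖ - Real.sqrt 2 * ‖avg w (Ab N) t‖| ≤ 0 := by
  refine weights Measure.count (ph N) ?_ (ph_norm N) (ph N) (ph_norm N) id
    (fun v => MeasurableSet.of_discrete) Set.univ 0 le_rfl (fun x _ y => by simp) (gf N b)
    (gf_int N b) (gf_one N b hb) (fun x hx => absurd (Set.mem_univ x) hx)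
  exact Measurable.of_discrete

theorem G_le (N : ℕ) (b : ℕ → ℂ) (hb : ∀ n ∈ Icc N (2 * N), ‖b n‖ ≤ 1) (t : ℕ) :
    ‖tr Measure.count (ph N) (gf N b) t‖ ≤ 1 :=
  tr_norm Measure.count (ph N) (ph_norm N) (gf N b) (gf_int N b) (gf_one N b hb) t

/-- the counting measure on `0, …, M - 1` -/
noncomputable def mu (M : ℕ) : Measure ℕ := Measure.count.restrict ((range M : Finset ℕ) : Set ℕ)

instance mu_fin (M : ℕ) : IsFiniteMeasure (mu M) := by
  refine ⟨?_⟩
  unfold mu
  rw [Measure.restrict_apply_univ, Measure.count_apply_finset]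
  exact ENNReal.natCast_lt_top _

open Classical in
theorem mu_real (M : ℕ) (A : Set ℕ) :
    (mu M).real A = (((range M).filter (fun t => t ∈ A)).card : ℝ) := by
  unfold mu
  rw [measureReal_restrict_apply MeasurableSet.of_discrete, Measure.real]
  have e : A ∩ ((range M : Finset ℕ) : Set ℕ) =
      (((range M).filter (fun t => t ∈ A) : Finset ℕ) : Set ℕ) := by
    ext t
    simp [and_comm]
  rw [e, Measure.count_apply_finset]
  simp

theorem un_single (I : Finset ℕ) : un (fun i : ℕ => ({i} : Set ℕ)) I = (I : Set ℕ) := by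
  unfold un
  ext t
  simp

open Classical in
theorem mu_real_inter (M : ℕ) (I : Finset ℕ) (hI : I ⊆ range M) (A : Set ℕ) :
    (mu M).real ((I : Set ℕ) ∩ A) = ((I.filter (fun t => t ∈ A)).card : ℝ) := by
  rw [mu_real]
  congr 2
  ext t
  simp only [mem_filter, Set.mem_inter_iff, mem_coe]
  constructor
  · rintro ⟨-, h1, h2⟩
    exact ⟨h1, h2⟩
  · rintro ⟨h1, h2⟩
    exact ⟨hI h1, h1, h2⟩

theorem int_count (I : Finset ℕ) (F : ℕ → ℝ) :
    ∫ t in (I : Set ℕ), F t ∂(Measure.count : Measure ℕ) = ∑ t ∈ I, F t := by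
  have h : IntegrableOn F (↑I) (Measure.count : Measure ℕ) := by
    refine Measure.integrableOn_of_bounded (M := ∑ t ∈ I, |F t|) ?_ ?_ ?_
    · rw [Measure.count_apply_finset]; exact ENNReal.natCast_ne_top _
    · exact (measurable_of_countable F).aestronglyMeasurable
    · rw [ae_restrict_iff' MeasurableSet.of_discrete]
      refine Filter.Eventually.of_forall fun t ht => ?_
      rw [Real.norm_eq_abs]
      exact single_le_sum (f := fun t => |F t|) (fun i _ => abs_nonneg _) (mem_coe.1 ht)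
  rw [setIntegral_finset _ h]
  refine sum_congr rfl fun t _ => ?_
  simp [Measure.real]

theorem int_mu (M : ℕ) (F : ℕ → ℝ) : ∫ t, F t ∂(mu M) = ∑ t ∈ range M, F t := by
  unfold mu
  exact int_count (range M) F

theorem int_mu_set (M : ℕ) (I : Finset ℕ) (hI : I ⊆ range M) (F : ℕ → ℝ) :
    ∫ t in (I : Set ℕ), F t ∂(mu M) = ∑ t ∈ I, F t := by
  have e : (mu M).restrict (I : Set ℕ) = (Measure.count : Measure ℕ).restrict (I : Set ℕ) := by
    unfold mu
    rw [Measure.restrict_restrict MeasurableSet.of_discrete]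
    congr 1
    rw [Set.inter_eq_left]
    exact_mod_cast hI
  rw [e]
  exact int_count I F

end Pool.Agent.P8H75.DS
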