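import Pool.Agent.P8H75.DS.A
import Pool.Agent.P8H75.RP.Main

set_option autoImplicit false
set_option linter.unusedSectionVars false

/-!
# Random sets of integers sample all Dirichlet polynomials: the count
-/

namespace Pool.Agent.P8H75.DS

open Finset MeasureTheory Pool.Agent.N248.RC Pool.Agent.P8H75.RP

open Classical in
/-- `I` samples all `D` on `0, …, M - 1` with the proportion `τ` -/
def Sm (N M : ℕ) (C τ : ℝ) (I : Finset ℕ) : Prop :=
  ∀ b : ℕ → ℂ, (∀ n ∈ Icc N (2 * N), ‖b n‖ ≤ 1) →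
    (∀ V : ℝ, 1 ≤ V →
      ((I.filter (fun t : ℕ => V < ‖D N b t‖)).card : ℝ) ≤
          C * (τ * (((range M).filter (fun t : ℕ => V / 4 < ‖D N b t‖)).card : ℝ) +
            Real.log N ^ 2 * (N : ℝ) ^ 2 / V ^ 2) ∧
        τ * (((range M).filter (fun t : ℕ => V < ‖D N b t‖)).card : ℝ) ≤
          C * (((I.filter (fun t : ℕ => V / 4 < ‖D N b t‖)).card : ℝ) +
            Real.log N ^ 2 * (N : ℝ) ^ 2 / V ^ 2)) ∧
    (∀ q : ℝ, 2 ≤ q →
      ∑ t ∈ I, ‖D N b (t : ℕ)‖ ^ q ≤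
          C ^ q * (τ * (∑ t ∈ range M, ‖D N b (t : ℕ)‖ ^ q) + Real.log N ^ 3 * (N : ℝ) ^ q) ∧
        τ * (∑ t ∈ range M, ‖D N b (t : ℕ)‖ ^ q) ≤
          C ^ q * ((∑ t ∈ I, ‖D N b (t : ℕ)‖ ^ q) + Real.log N ^ 3 * (N : ℝ) ^ q))

theorem sm_of_good (N M : ℕ) (hN : 2 ≤ N) (k : ℕ) (hk : k ≤ M) (K : ℕ)
    (Lg Li a : ℝ) (hLg : 1 ≤ Lg) (hLi : 0 ≤ Li) (ha : 0 ≤ a)
    (hexc : 4 * (mu M).real Set.univ * Real.exp (-Lg) ≤ 1)
    (hK : (1 / 4 : ℝ) ^ K * (mu M).real Set.univ ≤ 1)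
    (hKN : (1 / 2 : ℝ) ^ K * ((N : ℝ) + 1) < 1)
    (I : Finset ℕ) (hIJ : I ⊆ range M)
    (hI : GoodT (mu M) (range M) k (fun i : ℕ => ({i} : Set ℕ)) 1 (Ab N) Lg Li a K I)
    (e : ℝ) (hD : 8 * (17412 * Lg * Li + a + 3) ≤ e * Real.log N ^ 2)
    (hE : 2 * (K * (17412 * Lg * Li + a + 3)) + 1 ≤ e * Real.log N ^ 3) (he : 16 ≤ e) :
    Sm N M (2 * e) ((k : ℝ) / M) I := by
  classical
  set Q : ℝ := 17412 * Lg * Li + a + 3 with hQ
  have hQ0 : 0 ≤ Q := by positivity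
  have hNr : (2 : ℝ) ≤ N := by exact_mod_cast hN
  have hℓ := log_half (N : ℝ) hNr
  have hτ : 0 ≤ (k : ℝ) / M := by positivity
  have hτ1 : (k : ℝ) / M ≤ 1 := by
    have : (k : ℝ) ≤ M := by exact_mod_cast hk
    exact div_le_one_of_le₀ this (Nat.cast_nonneg _)
  have hv0 : (0 : ℝ) < (N : ℝ) + 1 := by positivity
  intro b hb
  set G : ℕ → ℝ := fun t => ‖tr Measure.count (ph N) (gf N b) t‖ with hG
  have hGm : Measurable G := Measurable.of_discrete
  have hG0 : ∀ y, 0 ≤ G y := fun y => norm_nonneg _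
  have hG1 : ∀ y, G y ≤ 1 := G_le N b hb
  have hFG : ∀ y : ℕ, ‖D N b y‖ = ((N : ℝ) + 1) * G y := D_eq N b
  obtain ⟨w, hw0, hw1, hw⟩ := short N b hb
  have hlev := levels (mu M) (range M) k (by rw [card_range]; exact hk)
    (fun i : ℕ => ({i} : Set ℕ)) 1 (Ab N) (Ab_meas N) (Ab_norm N)
    Lg Li a hLg K hexc I hI w hw0 hw1 G (fun y => (hw y).trans (by positivity))
  rw [card_range, un_single] at hlev
  refine ⟨?_, ?_⟩
  · intro V hV
    have hV0 : 0 < V := by linarith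
    have herr : 0 ≤ Real.log N ^ 2 * (N : ℝ) ^ 2 / V ^ 2 := by positivity
    rcases lt_or_ge ((N : ℝ) + 1) V with hbig | hsmall
    · have hempty : ∀ y : ℕ, ¬ V < ‖D N b y‖ := by
        intro y h
        rw [hFG y] at h
        have := mul_le_mul_of_nonneg_left (hG1 y) hv0.le
        linarith
      have e1 : ∀ A : Finset ℕ, A.filter (fun t : ℕ => V < ‖D N b t‖) = ∅ :=
        fun A => filter_false_of_mem fun y _ => hempty y
      rw [e1, e1]
      simp only [card_empty, Nat.cast_zero, mul_zero]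
      constructor <;> positivity
    · set x : ℝ := V / ((N : ℝ) + 1) with hx
      have hx0 : 0 < x := by positivity
      have hx1 : x ≤ 1 := (div_le_one hv0).2 hsmall
      obtain ⟨j, hj1, hj2⟩ := exists_nat_pow_near_of_lt_one hx0 hx1
        (show (0 : ℝ) < 1 / 2 by norm_num) (by norm_num)
      have hxK : (1 / 2 : ℝ) ^ K < x := by
        rw [hx, lt_div_iff₀ hv0]
        linarith
      have hjK : j < K := by
        by_contra h
        rw [not_lt] at h
        have : (1 / 2 : ℝ) ^ j ≤ (1 / 2 : ℝ) ^ K :=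
          pow_le_pow_of_le_one (by norm_num) (by norm_num) h
        linarith
      obtain ⟨h1, h2⟩ := hlev j hjK
      rw [mu_real_inter M I hIJ, mu_real] at h1 h2
      simp only [Set.mem_ofPred_eq] at h1 h2
      have hT := T_le Lg Li a hLg hLi ha j
      have h4 : (4 : ℝ) ^ j * x ^ 2 ≤ 1 := by
        have h5 : x ^ 2 ≤ ((1 / 2 : ℝ) ^ j) ^ 2 := pow_le_pow_left₀ hx0.le hj2 2
        have h6 : (4 : ℝ) ^ j * ((1 / 2 : ℝ) ^ j) ^ 2 = 1 := by
          rw [← pow_mul, mul_comm j 2, pow_mul, ← mul_pow]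
          norm_num
        calc (4 : ℝ) ^ j * x ^ 2 ≤ (4 : ℝ) ^ j * ((1 / 2 : ℝ) ^ j) ^ 2 :=
              mul_le_mul_of_nonneg_left h5 (by positivity)
          _ = 1 := h6
      have hT2 : tt Lg Li a j + 3 ≤ 4 * Q * (N : ℝ) ^ 2 / V ^ 2 := by
        refine hT.trans ?_
        rw [le_div_iff₀ (by positivity)]
        have e1 : x ^ 2 * ((N : ℝ) + 1) ^ 2 = V ^ 2 := by
          rw [← mul_pow, hx, div_mul_cancel₀ _ hv0.ne']
        have hN2 : ((N : ℝ) + 1) ^ 2 ≤ 4 * (N : ℝ) ^ 2 := by nlinarith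
        rw [← e1]
        calc Q * 4 ^ j * (x ^ 2 * ((N : ℝ) + 1) ^ 2) =
              (4 ^ j * x ^ 2) * (Q * ((N : ℝ) + 1) ^ 2) := by ring
          _ ≤ 1 * (Q * ((N : ℝ) + 1) ^ 2) := mul_le_mul_of_nonneg_right h4 (by positivity)
          _ ≤ 1 * (Q * (4 * (N : ℝ) ^ 2)) := by gcongr
          _ = _ := by ring
      have hup : ∀ A : Finset ℕ, ((A.filter (fun t : ℕ => V < ‖D N b t‖)).card : ℝ) ≤
          ((A.filter (fun t : ℕ => (1 / 2 : ℝ) ^ (j + 1) < G t)).card : ℝ) := by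
        intro A
        refine Nat.cast_le.2 (card_le_card fun y hy => ?_)
        rw [mem_filter] at hy ⊢
        refine ⟨hy.1, ?_⟩
        have h7 : V < ‖D N b y‖ := hy.2
        rw [hFG y] at h7
        have h8 : x < G y := by
          rw [hx, div_lt_iff₀ hv0]
          linarith
        exact hj1.trans h8
      have hdn : ∀ A : Finset ℕ,
          ((A.filter (fun t : ℕ => (1 / 2 : ℝ) ^ (j + 1) / 2 < G t)).card : ℝ) ≤
          ((A.filter (fun t : ℕ => V / 4 < ‖D N b t‖)).card : ℝ) := by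
        intro A
        refine Nat.cast_le.2 (card_le_card fun y hy => ?_)
        rw [mem_filter] at hy ⊢
        refine ⟨hy.1, ?_⟩
        have h7 : (1 / 2 : ℝ) ^ (j + 1) / 2 < G y := hy.2
        rw [hFG y]
        have h8 : x / 4 < G y := by
          rw [pow_succ] at h7
          linarith
        have h9 : V = ((N : ℝ) + 1) * x := by
          rw [hx, mul_div_cancel₀ _ hv0.ne']
        rw [h9]
        nlinarith
      have hQ8 : 4 * Q * (N : ℝ) ^ 2 / V ^ 2 ≤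
          e * (Real.log N ^ 2 * (N : ℝ) ^ 2 / V ^ 2) := by
        have h10 : 0 ≤ (N : ℝ) ^ 2 / V ^ 2 := by positivity
        have h11 : 4 * Q ≤ e * Real.log N ^ 2 := by linarith
        calc 4 * Q * (N : ℝ) ^ 2 / V ^ 2 = 4 * Q * ((N : ℝ) ^ 2 / V ^ 2) := by ring
          _ ≤ e * Real.log N ^ 2 * ((N : ℝ) ^ 2 / V ^ 2) := mul_le_mul_of_nonneg_right h11 h10
          _ = _ := by ring
      have u1 := hup I
      have u2 := hup (range M)
      have d1 := hdn I
      have d2 := hdn (range M)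
      set X := Real.log N ^ 2 * (N : ℝ) ^ 2 / V ^ 2 with hX
      constructor
      · have h12 := mul_le_mul_of_nonneg_left d2 hτ
        have h13 : 0 ≤ (k : ℝ) / M *
          (((range M).filter (fun t : ℕ => V / 4 < ‖D N b t‖)).card : ℝ) := by positivity
        nlinarith
      · have h12 := mul_le_mul_of_nonneg_left u2 hτ
        have h13 : (0 : ℝ) ≤ ((I.filter (fun t : ℕ => V / 4 < ‖D N b t‖)).card : ℝ) := by
          positivity
        nlinarith
  · intro q hq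
    have hq0 : 0 ≤ q := by linarith
    have h := two_sided (mu M) G hGm hG0 hG1 (I : Set ℕ) K ((k : ℝ) / M) 1 Q hτ hτ1 zero_le_one
      hQ0 (fun j => tt Lg Li a j + 3) (fun j _ => T_le Lg Li a hLg hLi ha j)
      (fun j hj => hlev j hj) q hq
    rw [int_mu_set M I hIJ, int_mu] at h
    have cS : ∀ A : Finset ℕ, ∑ t ∈ A, ‖D N b (t : ℕ)‖ ^ q =
        ((N : ℝ) + 1) ^ q * ∑ t ∈ A, G t ^ q := by
      intro A
      rw [mul_sum]
      refine sum_congr rfl fun t _ => ?_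
      rw [hFG t, Real.mul_rpow hv0.le (hG0 t)]
    rw [cS, cS]
    have hvp : 0 ≤ ((N : ℝ) + 1) ^ q := by positivity
    have hC16 : (4 : ℝ) * 4 ^ q ≤ (2 * e) ^ q := by
      have e1 : (4 : ℝ) ≤ 4 ^ q := by
        have := Real.rpow_le_rpow_of_exponent_le (show (1 : ℝ) ≤ 4 by norm_num)
          (show 1 ≤ q by linarith)
        rwa [Real.rpow_one] at this
      calc (4 : ℝ) * 4 ^ q ≤ 4 ^ q * 4 ^ q := mul_le_mul_of_nonneg_right e1 (by positivity)
        _ = 16 ^ q := by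
            rw [← Real.mul_rpow (by norm_num) (by norm_num)]
            norm_num
        _ ≤ (2 * e) ^ q := Real.rpow_le_rpow (by norm_num) (by linarith) hq0
    have herr : ((N : ℝ) + 1) ^ q * (2 * (1 * (K * Q)) + (1 / 4 : ℝ) ^ K *
        (mu M).real Set.univ) ≤ (2 * e) ^ q * (Real.log N ^ 3 * (N : ℝ) ^ q) := by
      have h1 : 2 * (1 * (K * Q)) + (1 / 4 : ℝ) ^ K * (mu M).real Set.univ ≤
          e * Real.log N ^ 3 := by linarith
      have h2 : ((N : ℝ) + 1) ^ q ≤ 2 ^ q * (N : ℝ) ^ q := by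
        rw [← Real.mul_rpow (by norm_num) (by positivity)]
        exact Real.rpow_le_rpow (by positivity) (by linarith) hq0
      have h3 : e ≤ e ^ q := by
        have := Real.rpow_le_rpow_of_exponent_le (show 1 ≤ e by linarith)
          (show 1 ≤ q by linarith)
        rwa [Real.rpow_one] at this
      have h4 : 0 ≤ Real.log N ^ 3 := by positivity
      calc ((N : ℝ) + 1) ^ q * (2 * (1 * (K * Q)) + (1 / 4 : ℝ) ^ K * (mu M).real Set.univ) ≤
            (2 ^ q * (N : ℝ) ^ q) * (e * Real.log N ^ 3) := by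
            refine mul_le_mul h2 h1 ?_ (by positivity)
            positivity
        _ ≤ (2 ^ q * (N : ℝ) ^ q) * (e ^ q * Real.log N ^ 3) := by gcongr
        _ = (2 * e) ^ q * (Real.log N ^ 3 * (N : ℝ) ^ q) := by
            rw [Real.mul_rpow (by norm_num) (by linarith)]
            ring
    have i1 : 0 ≤ (k : ℝ) / M * (((N : ℝ) + 1) ^ q * ∑ t ∈ range M, G t ^ q) := by
      have : 0 ≤ ∑ t ∈ range M, G t ^ q := sum_nonneg fun t _ => Real.rpow_nonneg (hG0 t) _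
      positivity
    have i2 : 0 ≤ ((N : ℝ) + 1) ^ q * ∑ t ∈ I, G t ^ q := by
      have : 0 ≤ ∑ t ∈ I, G t ^ q := sum_nonneg fun t _ => Real.rpow_nonneg (hG0 t) _
      positivity
    constructor
    · have h5 := mul_le_mul_of_nonneg_left h.1 hvp
      have h6 := mul_le_mul_of_nonneg_right hC16 i1
      rw [mul_add]
      linarith
    · have h5 := mul_le_mul_of_nonneg_left h.2 hvp
      have h6 := mul_le_mul_of_nonneg_right hC16 i2
      rw [mul_add]
      linarith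

open Classical in
/-- **Random sets of integers sample all Dirichlet polynomials.** -/
theorem main (A B : ℝ) (hA : 0 ≤ A) (hB : 0 ≤ B) : ∃ C : ℝ, 1 ≤ C ∧ ∀ N M : ℕ, 2 ≤ N →
    (M : ℝ) ≤ (N : ℝ) ^ B → ∀ k : ℕ, 1 ≤ k → k ≤ M →
      (((powersetCard k (range M)).filter (fun I => ¬ Sm N M C (k / M) I)).card : ℝ) ≤
        (N : ℝ) ^ (-A) * ((M.choose k : ℕ) : ℝ) := by
  set CK : ℝ := 2 * (B + 3) + 2 with hCK
  have hCK0 : 0 ≤ CK := by positivity
  set CL : ℝ := 2 * Real.log 13 + 1 with hCL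
  have hl13 : 0 ≤ Real.log 13 := Real.log_nonneg (by norm_num)
  have hl5 : 0 ≤ Real.log 5 := Real.log_nonneg (by norm_num)
  set CG : ℝ := 2 + 2 * Real.log 5 + B with hCG
  set CQ : ℝ := 17412 * (CG * CL) + 2 * (A + 2 * CK) + 12 with hCQ
  have hCL0 : 0 ≤ CL := by positivity
  have hCG0 : 0 ≤ CG := by positivity
  have hCQ0 : 0 ≤ CQ := by positivity
  set e : ℝ := 16 + 8 * CQ + 2 * (CK * CQ) + 8 with he
  have hCKQ : 0 ≤ CK * CQ := by positivity
  have he16 : 16 ≤ e := by linarith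
  refine ⟨2 * e, by linarith, ?_⟩
  intro N M hN hMB k hk hkM
  have hNr : (2 : ℝ) ≤ N := by exact_mod_cast hN
  have hN0 : (0 : ℝ) < N := by linarith
  have hℓ := log_half (N : ℝ) hNr
  set ℓ : ℝ := Real.log N with hℓd
  have hM1 : 1 ≤ M := by omega
  have hMr : (1 : ℝ) ≤ M := by exact_mod_cast hM1
  have hl2 := Real.log_two_gt_d9
  have hl2' := Real.log_two_lt_d9
  have hl20 : 0 < Real.log 2 := by linarith
  have hBℓ : 0 ≤ (B + 3) * ℓ := by positivity
  have hm : (mu M).real Set.univ = M := by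
    rw [mu_real]
    simp
  set K : ℕ := ⌈((B + 3) * ℓ) / Real.log 2⌉₊ with hK
  have hK1 : ((B + 3) * ℓ) / Real.log 2 ≤ K := Nat.le_ceil _
  have hK0 : (0 : ℝ) ≤ K := Nat.cast_nonneg K
  have hK2 : (K : ℝ) ≤ CK * ℓ := by
    have h1 : (K : ℝ) ≤ ((B + 3) * ℓ) / Real.log 2 + 1 :=
      (Nat.ceil_lt_add_one (by positivity)).le
    have h2 : ((B + 3) * ℓ) / Real.log 2 ≤ 2 * ((B + 3) * ℓ) := by
      rw [div_le_iff₀ hl20]
      have h4 := mul_le_mul_of_nonneg_left (show (1 : ℝ) / 2 ≤ Real.log 2 by linarith) hBℓ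
      linarith
    have e1 : CK * ℓ = 2 * ((B + 3) * ℓ) + 2 * ℓ := by rw [hCK]; ring
    rw [e1]
    linarith
  have h2K : (N : ℝ) ^ (B + 3) ≤ 2 ^ K := by
    have h1 : (B + 3) * ℓ ≤ K * Real.log 2 := by
      rwa [div_le_iff₀ hl20] at hK1
    have h2 := Real.exp_le_exp.2 h1
    rw [← Real.log_pow (2 : ℝ) K, Real.exp_log (show (0 : ℝ) < 2 ^ K by positivity),
      mul_comm (B + 3) ℓ, hℓd, ← Real.rpow_def_of_pos hN0] at h2
    exact h2
  have h2K0 : (0 : ℝ) < 2 ^ K := by positivity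
  have hhalf : (1 / 2 : ℝ) ^ K = ((2 : ℝ) ^ K)⁻¹ := by rw [one_div, inv_pow]
  have hNB : (N : ℝ) ^ (B + 3) = (N : ℝ) ^ B * (N : ℝ) ^ (3 : ℝ) := Real.rpow_add hN0 _ _
  have hNB1 : 1 ≤ (N : ℝ) ^ B := Real.one_le_rpow (by linarith) hB
  have hN3 : (N : ℝ) ^ (3 : ℝ) = (N : ℝ) ^ 3 := by
    rw [← Real.rpow_natCast]
    norm_num
  have hN8 : (8 : ℝ) ≤ (N : ℝ) ^ 3 := by
    have := pow_le_pow_left₀ (by norm_num) hNr 3
    norm_num at this
    exact this
  have hKN : (1 / 2 : ℝ) ^ K * ((N : ℝ) + 1) < 1 := by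
    rw [hhalf, inv_mul_lt_iff₀ h2K0, mul_one]
    refine lt_of_lt_of_le ?_ h2K
    rw [hNB, hN3]
    have h1 : (N : ℝ) + 1 < (N : ℝ) ^ 3 := by
      have h4 : (4 : ℝ) ≤ N * N := by nlinarith
      calc (N : ℝ) + 1 < N * 4 := by linarith
        _ ≤ N * (N * N) := mul_le_mul_of_nonneg_left h4 hN0.le
        _ = (N : ℝ) ^ 3 := by ring
    exact h1.trans_le (le_mul_of_one_le_left (by positivity) hNB1)
  have hKm : (1 / 4 : ℝ) ^ K * (mu M).real Set.univ ≤ 1 := by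
    rw [hm]
    have h4 : (1 / 4 : ℝ) ^ K ≤ ((2 : ℝ) ^ K)⁻¹ := by
      rw [← hhalf]
      exact pow_le_pow_left₀ (by norm_num) (by norm_num) K
    calc (1 / 4 : ℝ) ^ K * (M : ℝ) ≤ ((2 : ℝ) ^ K)⁻¹ * (N : ℝ) ^ B :=
          mul_le_mul h4 hMB (by positivity) (by positivity)
      _ ≤ 1 := by
          rw [inv_mul_le_iff₀ h2K0, mul_one]
          refine le_trans ?_ h2K
          rw [hNB, hN3]
          exact le_mul_of_one_le_right (by positivity) (le_trans (by norm_num) hN8)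
  set Li : ℝ := Real.log (((N : ℝ) + 1) * 4 + 1) with hLi
  have hLi0 : 0 ≤ Li := Real.log_nonneg (by linarith)
  have hcard : ((Fintype.card (Option (Vt N × Fin 4)) : ℕ) : ℝ) ≤ Real.exp Li := by
    rw [hLi, Real.exp_log (by positivity), Fintype.card_option, Fintype.card_prod,
      Fintype.card_fin, card_Vt]
    push_cast
    exact le_rfl
  have hLile : Li ≤ CL * ℓ := by
    have h2 : ((N : ℝ) + 1) * 4 + 1 ≤ 13 * N := by linarith
    have h3 : Li ≤ Real.log 13 + ℓ := by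
      refine (Real.log_le_log (by positivity) h2).trans (le_of_eq ?_)
      rw [Real.log_mul (by norm_num) hN0.ne']
    have h4 := dbl (Real.log 13) ℓ hl13 hℓ
    have e1 : CL * ℓ = 2 * Real.log 13 * ℓ + ℓ := by rw [hCL]; ring
    rw [e1]
    linarith
  set Lg : ℝ := 1 + Real.log (4 * M + 1) with hLg
  have hl4m : 0 ≤ Real.log (4 * (M : ℝ) + 1) := Real.log_nonneg (by linarith)
  have hLg1 : 1 ≤ Lg := by linarith
  have hLgle : Lg ≤ CG * ℓ := by
    have h1 : Real.log (4 * (M : ℝ) + 1) ≤ Real.log 5 + B * ℓ := by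
      have h2 : 4 * (M : ℝ) + 1 ≤ 5 * (N : ℝ) ^ B := by linarith
      refine (Real.log_le_log (by linarith) h2).trans (le_of_eq ?_)
      rw [Real.log_mul (by norm_num) (by positivity), Real.log_rpow hN0]
    have h3 := dbl (Real.log 5) ℓ hl5 hℓ
    have e1 : CG * ℓ = 2 * ℓ + 2 * Real.log 5 * ℓ + B * ℓ := by rw [hCG]; ring
    rw [e1]
    linarith
  have hexc : 4 * (mu M).real Set.univ * Real.exp (-Lg) ≤ 1 := by
    rw [hm]
    have e1 : Real.exp (-Lg) = Real.exp (-1) * (4 * (M : ℝ) + 1)⁻¹ := by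
      rw [hLg, neg_add, Real.exp_add, Real.exp_neg (Real.log _), Real.exp_log (by linarith)]
    rw [e1]
    have h1 : Real.exp (-1) ≤ 1 := Real.exp_le_one_iff.2 (by norm_num)
    have h2 : 4 * (M : ℝ) * (4 * (M : ℝ) + 1)⁻¹ ≤ 1 := by
      rw [← div_eq_mul_inv, div_le_one (by linarith)]
      linarith
    calc 4 * (M : ℝ) * (Real.exp (-1) * (4 * (M : ℝ) + 1)⁻¹)
        = Real.exp (-1) * (4 * (M : ℝ) * (4 * (M : ℝ) + 1)⁻¹) := by ring
      _ ≤ 1 := mul_le_one₀ h1 (by positivity) h2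
  set a : ℝ := A * ℓ + 2 * K with ha
  have ha0 : 0 ≤ a := by positivity
  have hale : a ≤ (A + 2 * CK) * ℓ := by rw [ha]; linarith
  have hgc := goodT_count (mu M) (range M) (by rw [nonempty_range_iff]; omega) k
    (by rw [card_range]; exact hkM) (fun i : ℕ => ({i} : Set ℕ))
    (fun i _ => MeasurableSet.of_discrete)
    (fun i _ j _ hij => by
      show Disjoint ({i} : Set ℕ) {j}
      simpa using hij)
    (by
      rw [un_single]
      unfold mu
      rw [Measure.restrict_apply MeasurableSet.of_discrete, Set.compl_inter_self,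
        measure_empty]) 1 one_pos
    (fun i _ => by
      show (mu M).real {i} ≤ 1
      have h1 : (mu M) {i} ≤ 1 := by
        refine (Measure.restrict_apply_le _ _).trans ?_
        rw [Measure.count_singleton]
      have h2 := ENNReal.toReal_mono ENNReal.one_ne_top h1
      rw [ENNReal.toReal_one] at h2
      exact h2)
    (Ab N) (Ab_meas N) Lg Li a hcard K
  rw [card_range] at hgc
  have hbad : 2 * (K : ℝ) * Real.exp (-a) ≤ (N : ℝ) ^ (-A) := by
    have h1 : 2 * (K : ℝ) ≤ Real.exp (2 * K) := by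
      have := Real.add_one_le_exp (2 * (K : ℝ))
      linarith
    calc 2 * (K : ℝ) * Real.exp (-a) ≤ Real.exp (2 * K) * Real.exp (-a) :=
          mul_le_mul_of_nonneg_right h1 (Real.exp_pos _).le
      _ = (N : ℝ) ^ (-A) := by
          rw [← Real.exp_add, Real.rpow_def_of_pos hN0, ha, hℓd]
          congr 1
          ring
  refine le_trans ?_ (hgc.trans (mul_le_mul_of_nonneg_right hbad (Nat.cast_nonneg _)))
  refine Nat.cast_le.2 (card_le_card ?_)
  intro I hI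
  rw [mem_filter] at hI ⊢
  refine ⟨hI.1, fun hgood => hI.2 ?_⟩
  have hIJ := (mem_powersetCard.1 hI.1).1
  have hQle : 17412 * Lg * Li + a + 3 ≤ CQ * ℓ ^ 2 := by
    have h1 : Lg * Li ≤ (CG * ℓ) * (CL * ℓ) := mul_le_mul hLgle hLile hLi0 (by positivity)
    have h2 : a ≤ 2 * (A + 2 * CK) * ℓ ^ 2 := by
      have h3 := (sq1 ℓ hℓ).2.1
      calc a ≤ (A + 2 * CK) * ℓ := hale
        _ ≤ (A + 2 * CK) * (2 * ℓ ^ 2) := mul_le_mul_of_nonneg_left h3 (by positivity)
        _ = _ := by ring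
    have h4 := (sq1 ℓ hℓ).1
    have e1 : CQ * ℓ ^ 2 = 17412 * ((CG * ℓ) * (CL * ℓ)) + 2 * (A + 2 * CK) * ℓ ^ 2 +
      12 * ℓ ^ 2 := by rw [hCQ]; ring
    rw [e1]
    linarith
  have hQ0 : 0 ≤ 17412 * Lg * Li + a + 3 := by positivity
  refine sm_of_good N M hN k hkM K Lg Li a hLg1 hLi0 ha0 hexc hKm hKN I hIJ hgood e ?_ ?_ he16
  · have h2 : 0 ≤ (16 + 2 * (CK * CQ) + 8) * ℓ ^ 2 := by positivity
    have e1 : e * ℓ ^ 2 = 8 * (CQ * ℓ ^ 2) + (16 + 2 * (CK * CQ) + 8) * ℓ ^ 2 := by rw [he]; ring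
    rw [e1]
    linarith
  · have h1 : (K : ℝ) * (17412 * Lg * Li + a + 3) ≤ (CK * ℓ) * (CQ * ℓ ^ 2) :=
      mul_le_mul hK2 hQle hQ0 (by positivity)
    have h2 := (sq1 ℓ hℓ).2.2
    have h3 : 0 ≤ (16 + 8 * CQ) * ℓ ^ 3 := by positivity
    have e1 : e * ℓ ^ 3 = 2 * ((CK * ℓ) * (CQ * ℓ ^ 2)) + 8 * ℓ ^ 3 + (16 + 8 * CQ) * ℓ ^ 3 := by
      rw [he]; ring
    rw [e1]
    linarith

end Pool.Agent.P8H75.DS
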