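import Pool.Agent.P8H75.DS.B

set_option autoImplicit false
set_option linter.unusedSectionVars false

/-!
# Montgomery's conjecture and random sets of integers
-/

namespace Pool.Agent.P8H75.DS

open Finset MeasureTheory Pool.Agent.N248.RC Pool.Agent.P8H75.RP

/-- the size of the random sets -/
noncomputable def kd (δ : ℝ) (N T : ℕ) : ℕ := ⌈((T : ℝ) + 1) * (N : ℝ) ^ (-δ)⌉₊

theorem kd_facts (δ : ℝ) (hδ : 0 ≤ δ) (hδ1 : δ ≤ 1) (N T : ℕ) (hN : 1 ≤ N) (hNT : N ≤ T) :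
    1 ≤ kd δ N T ∧ kd δ N T ≤ T + 1 ∧ (N : ℝ) ^ (-δ) ≤ (kd δ N T : ℝ) / ((T + 1 : ℕ) : ℝ) ∧
      (kd δ N T : ℝ) / ((T + 1 : ℕ) : ℝ) ≤ 2 * (N : ℝ) ^ (-δ) := by
  have hNr : (1 : ℝ) ≤ N := by exact_mod_cast hN
  have hN0 : (0 : ℝ) < N := by linarith
  have hTr : (N : ℝ) ≤ T := by exact_mod_cast hNT
  have h1 : 1 ≤ ((T : ℝ) + 1) * (N : ℝ) ^ (-δ) := by
    have h2 : (N : ℝ) ^ (-1 : ℝ) ≤ (N : ℝ) ^ (-δ) :=
      Real.rpow_le_rpow_of_exponent_le hNr (by linarith)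
    rw [Real.rpow_neg_one] at h2
    calc (1 : ℝ) = N * (N : ℝ)⁻¹ := by field_simp
      _ ≤ ((T : ℝ) + 1) * (N : ℝ) ^ (-δ) :=
          mul_le_mul (by linarith) h2 (by positivity) (by positivity)
  have hle : (N : ℝ) ^ (-δ) ≤ 1 := Real.rpow_le_one_of_one_le_of_nonpos hNr (by linarith)
  have h2 : ((T : ℝ) + 1) * (N : ℝ) ^ (-δ) ≤ kd δ N T := Nat.le_ceil _
  have hT0 : (0 : ℝ) < ((T + 1 : ℕ) : ℝ) := by positivity
  refine ⟨?_, ?_, ?_, ?_⟩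
  · have : (1 : ℝ) ≤ (kd δ N T : ℕ) := h1.trans h2
    exact_mod_cast this
  · unfold kd
    rw [Nat.ceil_le]
    push_cast
    exact mul_le_of_le_one_right (by positivity) hle
  · rw [le_div_iff₀ hT0]
    push_cast
    linarith
  · rw [div_le_iff₀ hT0]
    have h3 : ((kd δ N T : ℕ) : ℝ) < ((T : ℝ) + 1) * (N : ℝ) ^ (-δ) + 1 :=
      Nat.ceil_lt_add_one (by positivity)
    push_cast
    linarith

theorem log2' (ε : ℝ) (hε : 0 < ε) : ∃ L : ℝ, 0 ≤ L ∧ ∀ N : ℝ, 2 ≤ N →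
    Real.log N ^ 2 ≤ L * N ^ ε := by
  refine ⟨((ε / 2)⁻¹) ^ 2, by positivity, fun R hR => ?_⟩
  have h1 := Real.log_le_rpow_div (show (0 : ℝ) ≤ R by linarith) (show 0 < ε / 2 by positivity)
  have h0 : 0 ≤ Real.log R := Real.log_nonneg (by linarith)
  refine (pow_le_pow_left₀ h0 h1 2).trans (le_of_eq ?_)
  rw [div_pow, ← Real.rpow_natCast (R ^ (ε / 2)) 2, ← Real.rpow_mul (by linarith)]
  rw [show ε / 2 * ((2 : ℕ) : ℝ) = ε by push_cast; ring]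
  field_simp

open Classical in
/-- the number of large values in a set -/
noncomputable def lv (N : ℕ) (b : ℕ → ℂ) (V : ℝ) (I : Finset ℕ) : ℝ :=
  ((I.filter (fun t : ℕ => V < ‖D N b t‖)).card : ℝ)

theorem lv_mono (N : ℕ) (b : ℕ → ℂ) (V V' : ℝ) (h : V' ≤ V) (I : Finset ℕ) :
    lv N b V I ≤ lv N b V' I := by
  classical
  unfold lv
  refine Nat.cast_le.2 (card_le_card fun t ht => ?_)
  rw [mem_filter] at ht ⊢
  exact ⟨ht.1, lt_of_le_of_lt h ht.2⟩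

theorem lv_nonneg (N : ℕ) (b : ℕ → ℂ) (V : ℝ) (I : Finset ℕ) : 0 ≤ lv N b V I := by
  unfold lv
  positivity

theorem lv_card (N : ℕ) (b : ℕ → ℂ) (V : ℝ) (I : Finset ℕ) : lv N b V I ≤ I.card := by
  unfold lv
  exact_mod_cast card_filter_le _ _

/-- the large value bound on all integers with loss `N^δ`, for natural `T` -/
def Fa (A δ : ℝ) : Prop := ∀ σ : ℝ, 1 / 2 < σ → ∀ ε : ℝ, 0 < ε → ∃ C : ℝ, ∀ N T : ℕ, 2 ≤ N →
  N ≤ T → (T : ℝ) ≤ (N : ℝ) ^ A → ∀ b : ℕ → ℂ, (∀ n, ‖b n‖ ≤ 1) →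
    lv N b ((N : ℝ) ^ σ) (range (T + 1)) ≤ C * (N : ℝ) ^ (δ + (2 - 2 * σ) + ε)

/-- the large value bound of the conjecture inside a set -/
def Ok (N : ℕ) (σ ε C : ℝ) (I : Finset ℕ) : Prop := ∀ b : ℕ → ℂ, (∀ n, ‖b n‖ ≤ 1) →
  lv N b ((N : ℝ) ^ σ) I ≤ C * (N : ℝ) ^ (2 - 2 * σ + ε)

open Classical in
/-- the bound for almost all sets of density `N^(-δ)` -/
def Fb (A δ : ℝ) : Prop := ∀ B σ : ℝ, 1 / 2 < σ → ∀ ε : ℝ, 0 < ε → ∃ C : ℝ, ∀ N T : ℕ, 2 ≤ N →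
  N ≤ T → (T : ℝ) ≤ (N : ℝ) ^ A →
    (((powersetCard (kd δ N T) (range (T + 1))).filter (fun I => ¬ Ok N σ ε C I)).card : ℝ) ≤
      (N : ℝ) ^ (-B) * (((T + 1).choose (kd δ N T) : ℕ) : ℝ)

open Classical in
/-- the bound for a proportion `N^(-B)` of the sets of density `N^(-δ)` -/
def Fc (A δ : ℝ) : Prop := ∀ σ : ℝ, 1 / 2 < σ → ∀ ε : ℝ, 0 < ε → ∃ B C : ℝ, ∀ N T : ℕ, 2 ≤ N →
  N ≤ T → (T : ℝ) ≤ (N : ℝ) ^ A →
    (N : ℝ) ^ (-B) * (((T + 1).choose (kd δ N T) : ℕ) : ℝ) ≤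
      (((powersetCard (kd δ N T) (range (T + 1))).filter (fun I => Ok N σ ε C I)).card : ℝ)

theorem T_bound (A : ℝ) (N T : ℕ) (hN : 2 ≤ N) (hT : (T : ℝ) ≤ (N : ℝ) ^ A) :
    ((T + 1 : ℕ) : ℝ) ≤ (N : ℝ) ^ (max A 0 + 1) := by
  have hNr : (2 : ℝ) ≤ N := by exact_mod_cast hN
  have hN0 : (0 : ℝ) < N := by linarith
  have h1 : (N : ℝ) ^ A ≤ (N : ℝ) ^ (max A 0) :=
    Real.rpow_le_rpow_of_exponent_le (by linarith) (le_max_left _ _)
  have h2 : (1 : ℝ) ≤ (N : ℝ) ^ (max A 0) := Real.one_le_rpow (by linarith) (le_max_right _ _)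
  rw [Real.rpow_add_one hN0.ne']
  push_cast
  nlinarith

/-- small `N` -/
theorem small (N : ℕ) (hN : 1 ≤ N) (N₀ e x : ℝ) (hx : (N : ℝ) ≤ N₀) :
    x ≤ (max x 0 * N₀ ^ |e|) * (N : ℝ) ^ e := by
  have hNr : (1 : ℝ) ≤ N := by exact_mod_cast hN
  have hN0 : (0 : ℝ) < N := by linarith
  have hN₀ : 1 ≤ N₀ := hNr.trans hx
  have h1 : 1 ≤ N₀ ^ |e| * (N : ℝ) ^ e := by
    have h2 : (N : ℝ) ^ (-|e|) ≤ (N : ℝ) ^ e :=
      Real.rpow_le_rpow_of_exponent_le hNr (neg_abs_le e)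
    have h3 : (N : ℝ) ^ |e| ≤ N₀ ^ |e| := Real.rpow_le_rpow hN0.le hx (abs_nonneg _)
    calc (1 : ℝ) = (N : ℝ) ^ |e| * (N : ℝ) ^ (-|e|) := by
          rw [← Real.rpow_add hN0]
          simp
      _ ≤ N₀ ^ |e| * (N : ℝ) ^ e := mul_le_mul h3 h2 (by positivity) (by positivity)
  calc x ≤ max x 0 := le_max_left _ _
    _ = max x 0 * 1 := (mul_one _).symm
    _ ≤ max x 0 * (N₀ ^ |e| * (N : ℝ) ^ e) := mul_le_mul_of_nonneg_left h1 (le_max_right _ _)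
    _ = _ := by ring

/-- the change of the threshold -/
theorem thr (N : ℕ) (hN : 1 ≤ N) (σ η : ℝ) (h4 : 4 ≤ (N : ℝ) ^ η) :
    (N : ℝ) ^ (σ - η) ≤ (N : ℝ) ^ σ / 4 := by
  have hN0 : (0 : ℝ) < N := by exact_mod_cast hN
  rw [le_div_iff₀ (by norm_num)]
  calc (N : ℝ) ^ (σ - η) * 4 ≤ (N : ℝ) ^ (σ - η) * (N : ℝ) ^ η :=
        mul_le_mul_of_nonneg_left h4 (by positivity)
    _ = (N : ℝ) ^ σ := by
        rw [← Real.rpow_add hN0]
        congr 1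
        ring

theorem N_small (N : ℕ) (η : ℝ) (hη : 0 < η) (h4 : ¬ 4 ≤ (N : ℝ) ^ η) :
    (N : ℝ) ≤ (4 : ℝ) ^ (1 / η) := by
  rw [not_le] at h4
  have h1 := Real.rpow_le_rpow (by positivity) h4.le (show 0 ≤ 1 / η by positivity)
  rw [← Real.rpow_mul (Nat.cast_nonneg N), mul_one_div_cancel hη.ne', Real.rpow_one] at h1
  exact h1

theorem V_sq (N : ℕ) (hN : 1 ≤ N) (σ : ℝ) :
    (N : ℝ) ^ 2 / ((N : ℝ) ^ σ) ^ 2 = (N : ℝ) ^ (2 - 2 * σ) := by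
  have hN0 : (0 : ℝ) < N := by exact_mod_cast hN
  rw [Real.rpow_sub hN0, ← Real.rpow_natCast (N : ℝ) 2, ← Real.rpow_natCast ((N : ℝ) ^ σ) 2,
    ← Real.rpow_mul hN0.le]
  congr 2
  push_cast
  ring

theorem fb_of_fa (A δ : ℝ) (hδ : 0 ≤ δ) (hδ1 : δ ≤ 1) (h : Fa A δ) : Fb A δ := by
  classical
  intro B σ hσ ε hε
  set η : ℝ := min (ε / 8) ((σ - 1 / 2) / 2) with hη
  have hη0 : 0 < η := lt_min (by linarith) (by linarith)
  have hηε : η ≤ ε / 8 := min_le_left _ _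
  have hησ : 1 / 2 < σ - η := by
    have := min_le_right (ε / 8) ((σ - 1 / 2) / 2)
    linarith
  obtain ⟨C₀, hC₀⟩ := h (σ - η) hησ (ε / 4) (by linarith)
  obtain ⟨L, hL0, hL⟩ := log2' ε hε
  obtain ⟨C, hC1, hC⟩ := main (max B 0) (max A 0 + 1) (le_max_right _ _)
    (by have := le_max_right A 0; linarith)
  set N₀ : ℝ := (4 : ℝ) ^ (1 / η) with hN₀
  set C₁ : ℝ := max C₀ 0 with hC₁
  have hC₁0 : 0 ≤ C₁ := le_max_right _ _
  have hN₀0 : 0 ≤ N₀ := by positivity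
  refine ⟨C * (2 * C₁ + L) + max (N₀ ^ (max A 0 + 1)) 0 * N₀ ^ |2 - 2 * σ + ε|, ?_⟩
  intro N T hN hNT hT
  have hNr : (2 : ℝ) ≤ N := by exact_mod_cast hN
  have hN0 : (0 : ℝ) < N := by linarith
  have hTb := T_bound A N T hN hT
  obtain ⟨k1, k2, k3, k4⟩ := kd_facts δ hδ hδ1 N T (by omega) hNT
  have hcount := hC N (T + 1) hN hTb (kd δ N T) k1 k2
  have hB : (N : ℝ) ^ (-(max B 0)) ≤ (N : ℝ) ^ (-B) :=
    Real.rpow_le_rpow_of_exponent_le (by linarith) (neg_le_neg (le_max_left _ _))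
  refine le_trans ?_ (hcount.trans (mul_le_mul_of_nonneg_right hB (Nat.cast_nonneg _)))
  refine Nat.cast_le.2 (card_le_card fun I hI => ?_)
  rw [mem_filter] at hI ⊢
  refine ⟨hI.1, fun hgood => hI.2 fun b hb => ?_⟩
  have hpos : (0 : ℝ) < (N : ℝ) ^ (2 - 2 * σ + ε) := Real.rpow_pos_of_pos hN0 _
  have hs0 : 0 ≤ max (N₀ ^ (max A 0 + 1)) 0 * N₀ ^ |2 - 2 * σ + ε| := by positivity
  have hm0 : 0 ≤ C * (2 * C₁ + L) := by positivity
  by_cases h4 : 4 ≤ (N : ℝ) ^ η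
  · have h5 := ((hgood b (fun n _ => hb n)).1 ((N : ℝ) ^ σ)
      (Real.one_le_rpow (by linarith) (by linarith))).1
    have h6 : lv N b ((N : ℝ) ^ σ) I ≤ C * ((kd δ N T : ℝ) / ((T + 1 : ℕ) : ℝ) *
        lv N b ((N : ℝ) ^ σ / 4) (range (T + 1)) +
        Real.log N ^ 2 * (N : ℝ) ^ 2 / ((N : ℝ) ^ σ) ^ 2) := h5
    have h7 : lv N b ((N : ℝ) ^ σ / 4) (range (T + 1)) ≤
        C₁ * (N : ℝ) ^ (δ + (2 - 2 * (σ - η)) + ε / 4) :=
      (lv_mono N b _ _ (thr N (by omega) σ η h4) _).trans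
        ((hC₀ N T hN hNT hT b hb).trans (mul_le_mul_of_nonneg_right (le_max_left _ _)
          (by positivity)))
    have h8 : (kd δ N T : ℝ) / ((T + 1 : ℕ) : ℝ) * lv N b ((N : ℝ) ^ σ / 4) (range (T + 1)) ≤
        2 * C₁ * (N : ℝ) ^ (2 - 2 * σ + ε) := by
      calc (kd δ N T : ℝ) / ((T + 1 : ℕ) : ℝ) * lv N b ((N : ℝ) ^ σ / 4) (range (T + 1)) ≤
            (2 * (N : ℝ) ^ (-δ)) * (C₁ * (N : ℝ) ^ (δ + (2 - 2 * (σ - η)) + ε / 4)) :=
            mul_le_mul k4 h7 (lv_nonneg _ _ _ _) (by positivity)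
        _ = 2 * C₁ * ((N : ℝ) ^ (-δ) * (N : ℝ) ^ (δ + (2 - 2 * (σ - η)) + ε / 4)) := by ring
        _ ≤ 2 * C₁ * (N : ℝ) ^ (2 - 2 * σ + ε) := by
            rw [← Real.rpow_add hN0]
            refine mul_le_mul_of_nonneg_left (Real.rpow_le_rpow_of_exponent_le (by linarith) ?_)
              (by positivity)
            linarith
    have h9 : Real.log N ^ 2 * (N : ℝ) ^ 2 / ((N : ℝ) ^ σ) ^ 2 ≤
        L * (N : ℝ) ^ (2 - 2 * σ + ε) := by
      rw [mul_div_assoc, V_sq N (by omega)]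
      calc Real.log N ^ 2 * (N : ℝ) ^ (2 - 2 * σ) ≤ (L * (N : ℝ) ^ ε) * (N : ℝ) ^ (2 - 2 * σ) :=
            mul_le_mul_of_nonneg_right (hL N hNr) (by positivity)
        _ = _ := by rw [mul_assoc, ← Real.rpow_add hN0, add_comm ε]
    calc lv N b ((N : ℝ) ^ σ) I ≤ C * (2 * C₁ * (N : ℝ) ^ (2 - 2 * σ + ε) +
          L * (N : ℝ) ^ (2 - 2 * σ + ε)) :=
          h6.trans (mul_le_mul_of_nonneg_left (add_le_add h8 h9) (by linarith))
      _ = (C * (2 * C₁ + L)) * (N : ℝ) ^ (2 - 2 * σ + ε) := by ring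
      _ ≤ _ := mul_le_mul_of_nonneg_right (by linarith) hpos.le
  · have h5 := N_small N η hη0 h4
    have h6 : lv N b ((N : ℝ) ^ σ) I ≤ N₀ ^ (max A 0 + 1) := by
      refine (lv_card N b _ I).trans ?_
      rw [(mem_powersetCard.1 hI.1).2]
      refine (Nat.cast_le.2 k2).trans (hTb.trans ?_)
      refine Real.rpow_le_rpow hN0.le h5 ?_
      have := le_max_right A 0
      linarith
    refine h6.trans ((small N (by omega) N₀ (2 - 2 * σ + ε) _ h5).trans ?_)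
    exact mul_le_mul_of_nonneg_right (by linarith) hpos.le

theorem fc_of_fb (A δ : ℝ) (h : Fb A δ) : Fc A δ := by
  classical
  intro σ hσ ε hε
  obtain ⟨C, hC⟩ := h 1 σ hσ ε hε
  refine ⟨1, C, fun N T hN hNT hT => ?_⟩
  have hNr : (2 : ℝ) ≤ N := by exact_mod_cast hN
  have h1 := hC N T hN hNT hT
  have h2 := card_filter_add_card_filter_not
    (s := powersetCard (kd δ N T) (range (T + 1))) (fun I => Ok N σ ε C I)
  rw [card_powersetCard, card_range] at h2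
  have h3 : (((powersetCard (kd δ N T) (range (T + 1))).filter
      (fun I => Ok N σ ε C I)).card : ℝ) +
      (((powersetCard (kd δ N T) (range (T + 1))).filter
      (fun I => ¬ Ok N σ ε C I)).card : ℝ) =
      (((T + 1).choose (kd δ N T) : ℕ) : ℝ) := by exact_mod_cast h2
  have h4 : (N : ℝ) ^ (-1 : ℝ) ≤ 1 / 2 := by
    rw [Real.rpow_neg_one, inv_le_comm₀ (by linarith) (by norm_num)]
    norm_num
    exact hN
  have h5 := mul_le_mul_of_nonneg_right h4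
    (Nat.cast_nonneg (α := ℝ) ((T + 1).choose (kd δ N T)))
  linarith

theorem fa_of_fc (A δ : ℝ) (hδ : 0 ≤ δ) (hδ1 : δ ≤ 1) (h : Fc A δ) : Fa A δ := by
  classical
  intro σ hσ ε hε
  set η : ℝ := min (ε / 8) ((σ - 1 / 2) / 2) with hη
  have hη0 : 0 < η := lt_min (by linarith) (by linarith)
  have hηε : η ≤ ε / 8 := min_le_left _ _
  have hησ : 1 / 2 < σ - η := by
    have := min_le_right (ε / 8) ((σ - 1 / 2) / 2)
    linarith
  obtain ⟨B, C₀, hC₀⟩ := h (σ - η) hησ (ε / 4) (by linarith)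
  obtain ⟨L, hL0, hL⟩ := log2' ε hε
  obtain ⟨C, hC1, hC⟩ := main (max B 0 + 1) (max A 0 + 1)
    (by have := le_max_right B 0; linarith) (by have := le_max_right A 0; linarith)
  set N₀ : ℝ := (4 : ℝ) ^ (1 / η) with hN₀
  set C₁ : ℝ := max C₀ 0 with hC₁
  have hC₁0 : 0 ≤ C₁ := le_max_right _ _
  have hN₀0 : 0 ≤ N₀ := by positivity
  refine ⟨C * (C₁ + L) + max (N₀ ^ (max A 0 + 1)) 0 * N₀ ^ |δ + (2 - 2 * σ) + ε|, ?_⟩
  intro N T hN hNT hT b hb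
  have hNr : (2 : ℝ) ≤ N := by exact_mod_cast hN
  have hN0 : (0 : ℝ) < N := by linarith
  have hTb := T_bound A N T hN hT
  obtain ⟨k1, k2, k3, k4⟩ := kd_facts δ hδ hδ1 N T (by omega) hNT
  have hpos : (0 : ℝ) < (N : ℝ) ^ (δ + (2 - 2 * σ) + ε) := Real.rpow_pos_of_pos hN0 _
  have hs0 : 0 ≤ max (N₀ ^ (max A 0 + 1)) 0 * N₀ ^ |δ + (2 - 2 * σ) + ε| := by positivity
  have hm0 : 0 ≤ C * (C₁ + L) := by positivity
  by_cases h4 : 4 ≤ (N : ℝ) ^ η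
  · have hcount := hC N (T + 1) hN hTb (kd δ N T) k1 k2
    have hgoodc := hC₀ N T hN hNT hT
    have hM0 : (0 : ℝ) < (((T + 1).choose (kd δ N T) : ℕ) : ℝ) := by
      exact_mod_cast Nat.choose_pos k2
    have hlt : (N : ℝ) ^ (-(max B 0 + 1)) * (((T + 1).choose (kd δ N T) : ℕ) : ℝ) <
        (N : ℝ) ^ (-B) * (((T + 1).choose (kd δ N T) : ℕ) : ℝ) := by
      refine mul_lt_mul_of_pos_right ?_ hM0
      refine Real.rpow_lt_rpow_of_exponent_lt (by linarith) ?_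
      have := le_max_left B 0
      linarith
    obtain ⟨I, hI1, hI2⟩ : ∃ I ∈ (powersetCard (kd δ N T) (range (T + 1))).filter
        (fun I => Ok N (σ - η) (ε / 4) C₀ I),
        I ∉ (powersetCard (kd δ N T) (range (T + 1))).filter
          (fun I => ¬ Sm N (T + 1) C ((kd δ N T : ℝ) / ((T + 1 : ℕ) : ℝ)) I) := by
      by_contra hcon
      push Not at hcon
      have h5 := card_le_card (fun x hx => hcon x hx)
      have h6 : (((powersetCard (kd δ N T) (range (T + 1))).filter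
        (fun I => Ok N (σ - η) (ε / 4) C₀ I)).card : ℝ) ≤
        (((powersetCard (kd δ N T) (range (T + 1))).filter
          (fun I => ¬ Sm N (T + 1) C ((kd δ N T : ℝ) / ((T + 1 : ℕ) : ℝ)) I)).card : ℝ) :=
        Nat.cast_le.2 h5
      linarith
    rw [mem_filter] at hI1
    have hgood : Sm N (T + 1) C ((kd δ N T : ℝ) / ((T + 1 : ℕ) : ℝ)) I := by
      by_contra hcon
      exact hI2 (mem_filter.2 ⟨hI1.1, hcon⟩)
    have h5 := ((hgood b (fun n _ => hb n)).1 ((N : ℝ) ^ σ)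
      (Real.one_le_rpow (by linarith) (by linarith))).2
    have h6 : (kd δ N T : ℝ) / ((T + 1 : ℕ) : ℝ) * lv N b ((N : ℝ) ^ σ) (range (T + 1)) ≤
        C * (lv N b ((N : ℝ) ^ σ / 4) I +
        Real.log N ^ 2 * (N : ℝ) ^ 2 / ((N : ℝ) ^ σ) ^ 2) := h5
    have h7 : lv N b ((N : ℝ) ^ σ / 4) I ≤ C₁ * (N : ℝ) ^ (2 - 2 * σ + ε) := by
      refine (lv_mono N b _ _ (thr N (by omega) σ η h4) _).trans ((hI1.2 b hb).trans ?_)
      refine (mul_le_mul_of_nonneg_right (le_max_left C₀ 0) (by positivity)).trans ?_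
      refine mul_le_mul_of_nonneg_left (Real.rpow_le_rpow_of_exponent_le (by linarith) ?_) hC₁0
      linarith
    have h9 : Real.log N ^ 2 * (N : ℝ) ^ 2 / ((N : ℝ) ^ σ) ^ 2 ≤
        L * (N : ℝ) ^ (2 - 2 * σ + ε) := by
      rw [mul_div_assoc, V_sq N (by omega)]
      calc Real.log N ^ 2 * (N : ℝ) ^ (2 - 2 * σ) ≤ (L * (N : ℝ) ^ ε) * (N : ℝ) ^ (2 - 2 * σ) :=
            mul_le_mul_of_nonneg_right (hL N hNr) (by positivity)
        _ = _ := by rw [mul_assoc, ← Real.rpow_add hN0, add_comm ε]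
    have h10 : (N : ℝ) ^ (-δ) * lv N b ((N : ℝ) ^ σ) (range (T + 1)) ≤
        (C * (C₁ + L)) * (N : ℝ) ^ (2 - 2 * σ + ε) := by
      calc (N : ℝ) ^ (-δ) * lv N b ((N : ℝ) ^ σ) (range (T + 1)) ≤
            (kd δ N T : ℝ) / ((T + 1 : ℕ) : ℝ) * lv N b ((N : ℝ) ^ σ) (range (T + 1)) :=
            mul_le_mul_of_nonneg_right k3 (lv_nonneg _ _ _ _)
        _ ≤ C * (C₁ * (N : ℝ) ^ (2 - 2 * σ + ε) + L * (N : ℝ) ^ (2 - 2 * σ + ε)) :=
            h6.trans (mul_le_mul_of_nonneg_left (add_le_add h7 h9) (by linarith))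
        _ = _ := by ring
    have h11 : lv N b ((N : ℝ) ^ σ) (range (T + 1)) ≤
        (C * (C₁ + L)) * (N : ℝ) ^ (δ + (2 - 2 * σ) + ε) := by
      calc lv N b ((N : ℝ) ^ σ) (range (T + 1)) =
            (N : ℝ) ^ δ * ((N : ℝ) ^ (-δ) * lv N b ((N : ℝ) ^ σ) (range (T + 1))) := by
            rw [← mul_assoc, ← Real.rpow_add hN0]
            simp
        _ ≤ (N : ℝ) ^ δ * ((C * (C₁ + L)) * (N : ℝ) ^ (2 - 2 * σ + ε)) :=
            mul_le_mul_of_nonneg_left h10 (by positivity)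
        _ = (C * (C₁ + L)) * ((N : ℝ) ^ δ * (N : ℝ) ^ (2 - 2 * σ + ε)) := by ring
        _ = _ := by
            rw [← Real.rpow_add hN0]
            congr 2
            ring
    exact h11.trans (mul_le_mul_of_nonneg_right (by linarith) hpos.le)
  · have h5 := N_small N η hη0 h4
    have h6 : lv N b ((N : ℝ) ^ σ) (range (T + 1)) ≤ N₀ ^ (max A 0 + 1) := by
      refine (lv_card N b _ _).trans ?_
      rw [card_range]
      refine hTb.trans (Real.rpow_le_rpow hN0.le h5 ?_)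
      have := le_max_right A 0
      linarith
    refine h6.trans ((small N (by omega) N₀ (δ + (2 - 2 * σ) + ε) _ h5).trans ?_)
    exact mul_le_mul_of_nonneg_right (by linarith) hpos.le

/-- sparse random sets of all densities -/
theorem fa_zero (A : ℝ) : Fa A 0 ↔ ∀ δ : ℝ, 0 < δ → δ ≤ 1 → Fc A δ := by
  constructor
  · intro h δ hδ hδ1
    refine fc_of_fb A δ (fb_of_fa A δ hδ.le hδ1 ?_)
    intro σ hσ ε hε
    obtain ⟨C, hC⟩ := h σ hσ ε hε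
    refine ⟨max C 0, fun N T hN hNT hT b hb => (hC N T hN hNT hT b hb).trans ?_⟩
    have hNr : (2 : ℝ) ≤ N := by exact_mod_cast hN
    calc C * (N : ℝ) ^ (0 + (2 - 2 * σ) + ε) ≤ max C 0 * (N : ℝ) ^ (0 + (2 - 2 * σ) + ε) :=
          mul_le_mul_of_nonneg_right (le_max_left _ _) (by positivity)
      _ ≤ _ := mul_le_mul_of_nonneg_left
          (Real.rpow_le_rpow_of_exponent_le (by linarith) (by linarith)) (le_max_right _ _)
  · intro h σ hσ ε hε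
    set δ : ℝ := min (ε / 2) 1 with hδ
    have hδ0 : 0 < δ := lt_min (by linarith) one_pos
    have hδ1 : δ ≤ 1 := min_le_right _ _
    have hδε : δ ≤ ε / 2 := min_le_left _ _
    obtain ⟨C, hC⟩ := fa_of_fc A δ hδ0.le hδ1 (h δ hδ0 hδ1) σ hσ (ε / 2) (by linarith)
    refine ⟨max C 0, fun N T hN hNT hT b hb => (hC N T hN hNT hT b hb).trans ?_⟩
    have hNr : (2 : ℝ) ≤ N := by exact_mod_cast hN
    calc C * (N : ℝ) ^ (δ + (2 - 2 * σ) + ε / 2) ≤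
          max C 0 * (N : ℝ) ^ (δ + (2 - 2 * σ) + ε / 2) :=
          mul_le_mul_of_nonneg_right (le_max_left _ _) (by positivity)
      _ ≤ _ := mul_le_mul_of_nonneg_left
          (Real.rpow_le_rpow_of_exponent_le (by linarith) (by linarith)) (le_max_right _ _)

end Pool.Agent.P8H75.DS
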